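import Mathlib
import Pool.Agent.V11189.FeFinal

set_option autoImplicit false

namespace Pool.Agent.Results.MP_12983e_an.AllContinuousSolutions

/-- Complete list of the continuous solutions `f : ℝ → ℝ` of `f (x + f x) = f x + f (f x)`:
the linear maps, and the maps which are linear with nonnegative slopes on each of the two
half lines. -/
theorem result : ∀ f : ℝ → ℝ, Continuous f →
    ((∀ x, f (x + f x) = f x + f (f x)) ↔
      ((∃ a : ℝ, ∀ x, f x = a * x) ∨
        ∃ a b : ℝ, 0 ≤ a ∧ 0 ≤ b ∧ ∀ x, f x = if 0 ≤ x then a * x else b * x)) := by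
  intro f hf
  constructor
  · intro he
    exact Pool.Agent.V11189.FE.classification ⟨hf, he⟩
  · rintro (⟨a, ha⟩ | ⟨a, b, ha, hb, hfab⟩) x
    · rw [ha (x + f x), ha (f x), ha x]
      ring
    · by_cases hx : 0 ≤ x
      · have h1 : f x = a * x := by rw [hfab, if_pos hx]
        have h2 : 0 ≤ f x := by rw [h1]; positivity
        rw [hfab (x + f x), hfab (f x), if_pos (add_nonneg hx h2), if_pos h2, h1]
        ring
      · have hx' : x < 0 := not_le.1 hx
        have h1 : f x = b * x := by rw [hfab, if_neg hx]
        rcases hb.eq_or_lt with hb0 | hb0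
        · rw [← hb0, zero_mul] at h1
          rw [h1, add_zero, h1, hfab 0, if_pos le_rfl, mul_zero, add_zero]
        · have h2 : f x < 0 := by rw [h1]; exact mul_neg_of_pos_of_neg hb0 hx'
          rw [hfab (x + f x), hfab (f x), if_neg (not_le.2 (add_neg hx' h2)),
            if_neg (not_le.2 h2), h1]
          ring

end Pool.Agent.Results.MP_12983e_an.AllContinuousSolutions
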